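import Pool.Agent.N929.EZ.Stm3

/-! # Project EZ, part XT: the extent of a walk after filling slots -/

set_option autoImplicit false

namespace Pool.Agent.N426.EZ

open Pool.Agent.H976R2 Pool.Agent.H976R2.Dir Finset
open Pool.Agent.N929.EX Pool.Agent.N929.EY Pool.Agent.N929.EZ
open scoped Classical

noncomputable section

/-- visited up to the time `n` -/
def Vs (w : List Dir) (v : ℤ × ℤ) : Prop := ∃ t, t ≤ w.length ∧ Lip.PP w t = v

/-- the four corners -/
def Co (q : ℤ × ℤ) : Finset (ℤ × ℤ) := {q, (q.1 + 1, q.2), (q.1, q.2 + 1), (q.1 + 1, q.2 + 1)}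

theorem mem_Co {q v : ℤ × ℤ} : v ∈ Co q ↔ Cn q v := by
  unfold Co Cn
  simp only [Finset.mem_insert, Finset.mem_singleton, Prod.ext_iff]
  constructor
  · rintro (⟨h1, h2⟩ | ⟨h1, h2⟩ | ⟨h1, h2⟩ | ⟨h1, h2⟩)
    · exact ⟨Or.inl h1, Or.inl h2⟩
    · exact ⟨Or.inr h1, Or.inl h2⟩
    · exact ⟨Or.inl h1, Or.inr h2⟩
    · exact ⟨Or.inr h1, Or.inr h2⟩
  · rintro ⟨h1 | h1, h2 | h2⟩
    · exact Or.inl ⟨h1, h2⟩
    · exact Or.inr (Or.inr (Or.inl ⟨h1, h2⟩))
    · exact Or.inr (Or.inl ⟨h1, h2⟩)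
    · exact Or.inr (Or.inr (Or.inr ⟨h1, h2⟩))

theorem card_Co (q : ℤ × ℤ) : (Co q).card ≤ 4 := by
  unfold Co
  exact Finset.card_le_four

/-- a walk at corners of `q` at four times visits all the corners -/
theorem all_corners {w : List Dir} (hw : Saw w) {q : ℤ × ℤ} {k : ℕ} (h : At w q k 3) {v : ℤ × ℤ}
    (hv : Cn q v) : ∃ t, k ≤ t ∧ t ≤ k + 3 ∧ Lip.PP w t = v := by
  have hsub : (Icc k (k + 3)).image (fun t => Lip.PP w t) ⊆ Co q := by
    intro p hp
    obtain ⟨t, ht, rfl⟩ := Finset.mem_image.1 hp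
    rw [Finset.mem_Icc] at ht
    exact mem_Co.2 ((h.2 t (by have := h.1; omega)).2 ht)
  have hcard : ((Icc k (k + 3)).image (fun t => Lip.PP w t)).card = 4 := by
    rw [Finset.card_image_of_injOn]
    · rw [Nat.card_Icc]; omega
    · intro t ht t' ht' hh
      rw [Finset.mem_coe, Finset.mem_Icc] at ht ht'
      exact Lip.PP_inj hw (by have := h.1; omega) (by have := h.1; omega) hh
  have he := Finset.eq_of_subset_of_card_le hsub (by rw [hcard]; exact card_Co q)
  have hv' : v ∈ (Icc k (k + 3)).image (fun t => Lip.PP w t) := by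
    rw [he]; exact mem_Co.2 hv
  obtain ⟨t, ht, rfl⟩ := Finset.mem_image.1 hv'
  rw [Finset.mem_Icc] at ht
  exact ⟨t, ht.1, ht.2, rfl⟩

/-- the sites visited after adding a bump -/
theorem vs_bp {n k : ℕ} {w : List Dir} {q : ℤ × ℤ} {w' : List Dir} (h : Bp n k w q w')
    (v : ℤ × ℤ) : Vs w' v ↔ Vs w v ∨ Cn q v := by
  obtain ⟨hl, hs⟩ := mem_SW.1 h.sw
  obtain ⟨hl', hs'⟩ := mem_SW.1 h.sw'
  have hk := h.at1.1
  constructor
  · rintro ⟨t, ht, rfl⟩
    rcases lt_or_ge t k with h1 | h1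
    · left
      exact ⟨t, by omega, (h.lo t h1).symm⟩
    · rcases le_or_gt t (k + 3) with h2 | h2
      · right
        exact (h.at3.2 t ht).2 ⟨h1, h2⟩
      · left
        refine ⟨t - 2, by omega, ?_⟩
        have h3 := h.hi (t - 2) (by omega) (by omega)
        rw [show t - 2 + 2 = t by omega] at h3
        exact h3.symm
  · rintro (⟨t, ht, rfl⟩ | hc)
    · rcases lt_or_ge t k with h1 | h1
      · exact ⟨t, by omega, h.lo t h1⟩
      · rcases le_or_gt t (k + 1) with h2 | h2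
        · obtain ⟨t', h3, h4, h5⟩ := all_corners hs' h.at3 ((h.at1.2 t ht).2 ⟨h1, h2⟩)
          exact ⟨t', by have := h.at3.1; omega, h5⟩
        · exact ⟨t + 2, by omega, h.hi t h2 (by omega)⟩
    · obtain ⟨t', h3, h4, h5⟩ := all_corners hs' h.at3 hc
      exact ⟨t', by have := h.at3.1; omega, h5⟩

/-- induction over the sets of slots in increasing lexicographic order -/
theorem lex_induction {S : Finset (ℤ × ℤ)} {P : Finset (ℤ × ℤ) → Prop} (h0 : P ∅)
    (h1 : ∀ U q, U ⊆ S → q ∈ S → q ∉ U → (∀ x ∈ U, x.1 < q.1 ∨ (x.1 = q.1 ∧ x.2 < q.2)) →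
      P U → P (insert q U)) : ∀ U ⊆ S, P U := by
  intro U
  induction hn : U.card using Nat.strong_induction_on generalizing U with
  | _ n ih =>
    intro hU
    rcases U.eq_empty_or_nonempty with h | h
    · rw [h]; exact h0
    · obtain ⟨q, hq, hmax⟩ := Finset.exists_max_image U (fun x : ℤ × ℤ => toLex x) h
      have h2 : P (insert q (U.erase q)) := by
        apply h1 _ _ ((Finset.erase_subset _ _).trans hU) (hU hq) (Finset.notMem_erase _ _)
        · intro x hx
          have hx1 := Finset.mem_of_mem_erase hx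
          have hx2 := Finset.ne_of_mem_erase hx
          have hx3 := hmax x hx1
          have hx4 : toLex x < toLex q := lt_of_le_of_ne hx3 (fun h => hx2 (toLex.injective h))
          rw [Prod.Lex.toLex_lt_toLex] at hx4
          exact hx4
        · apply ih (U.erase q).card _ _ rfl ((Finset.erase_subset _ _).trans hU)
          rw [← hn]
          exact Finset.card_erase_lt_of_mem hq
      rwa [Finset.insert_erase hq] at h2

section main

variable {L : Finset (ℤ × ℤ)} {a l : ℕ} {st : List Dir → List Dir}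
  {fl : List Dir → Finset (ℤ × ℤ) → List Dir}

/-- the sites visited after filling slots -/
theorem vs_fl (hF : Fill L a l st fl) {w : List Dir} (hw : Em L a l w) (v : ℤ × ℤ) :
    ∀ U ⊆ Sl L a l w, (Vs (fl w U) v ↔ Vs w v ∨ ∃ q ∈ U, Cn q v) := by
  apply lex_induction
  · rw [hF.fl_empty w hw]
    simp
  · intro U q hU hq hqU hlt ih
    obtain ⟨k, -, -, hb⟩ := hF.fl_insert w U q hw hU hq hqU hlt
    rw [vs_bp hb v, ih]
    constructor
    · rintro ((h | ⟨p, hp, hc⟩) | h)
      · exact Or.inl h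
      · exact Or.inr ⟨p, Finset.mem_insert_of_mem hp, hc⟩
      · exact Or.inr ⟨q, Finset.mem_insert_self _ _, h⟩
    · rintro (h | ⟨p, hp, hc⟩)
      · exact Or.inl (Or.inl h)
      · rcases Finset.mem_insert.1 hp with h | h
        · subst h
          exact Or.inr hc
        · exact Or.inl (Or.inr ⟨p, h, hc⟩)

/-- the last point -/
theorem last_fl (hF : Fill L a l st fl) {w : List Dir} (hw : Em L a l w) :
    ∀ U ⊆ Sl L a l w, Lip.PP (fl w U) (fl w U).length = Lip.PP w w.length := by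
  apply lex_induction
  · rw [hF.fl_empty w hw]
  · intro U q hU hq hqU hlt ih
    obtain ⟨k, -, hk, hb⟩ := hF.fl_insert w U q hw hU hq hqU hlt
    rw [← ih, (mem_SW.1 hb.sw').1, (mem_SW.1 hb.sw).1]
    exact hb.hi _ (by omega) le_rfl

/-- a slot has a corner that is visited -/
theorem slot_vs {w : List Dir} {q : ℤ × ℤ} (hq : q ∈ Sl L a l w) :
    ∃ v, Vs w v ∧ Cn q v := by
  unfold Sl DD at hq
  obtain ⟨-, k, h | h⟩ := Finset.mem_filter.1 hq
  · have h1 := h.1.1
    exact ⟨_, ⟨k, by omega, rfl⟩, (h.1.2 k (by omega)).2 ⟨le_rfl, by omega⟩⟩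
  · have h1 := h.1.1
    exact ⟨_, ⟨k, by omega, rfl⟩, (h.1.2 k (by omega)).2 ⟨le_rfl, by omega⟩⟩

end main

/-! ### the extent -/

theorem le_mxx {w : List Dir} {v : ℤ × ℤ} (h : Vs w v) : v.1 ≤ mxx w := by
  obtain ⟨t, ht, rfl⟩ := h
  exact Finset.le_sup' (fun t => (Lip.PP w t).1) (Finset.mem_range.2 (by omega))

theorem ex_mxx (w : List Dir) : ∃ v, Vs w v ∧ v.1 = mxx w := by
  obtain ⟨t, ht, h⟩ := Finset.exists_mem_eq_sup' (s := range (w.length + 1)) ⟨0, by simp⟩
    (fun t => (Lip.PP w t).1)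
  exact ⟨_, ⟨t, by have := Finset.mem_range.1 ht; omega, rfl⟩, h.symm⟩

theorem mnx_le {w : List Dir} {v : ℤ × ℤ} (h : Vs w v) : mnx w ≤ v.1 := by
  obtain ⟨t, ht, rfl⟩ := h
  exact Finset.inf'_le (fun t => (Lip.PP w t).1) (Finset.mem_range.2 (by omega))

theorem ex_mnx (w : List Dir) : ∃ v, Vs w v ∧ v.1 = mnx w := by
  obtain ⟨t, ht, h⟩ := Finset.exists_mem_eq_inf' (s := range (w.length + 1)) ⟨0, by simp⟩
    (fun t => (Lip.PP w t).1)
  exact ⟨_, ⟨t, by have := Finset.mem_range.1 ht; omega, rfl⟩, h.symm⟩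

theorem le_mxy {w : List Dir} {v : ℤ × ℤ} (h : Vs w v) : v.2 ≤ mxy w := by
  obtain ⟨t, ht, rfl⟩ := h
  exact Finset.le_sup' (fun t => (Lip.PP w t).2) (Finset.mem_range.2 (by omega))

theorem ex_mxy (w : List Dir) : ∃ v, Vs w v ∧ v.2 = mxy w := by
  obtain ⟨t, ht, h⟩ := Finset.exists_mem_eq_sup' (s := range (w.length + 1)) ⟨0, by simp⟩
    (fun t => (Lip.PP w t).2)
  exact ⟨_, ⟨t, by have := Finset.mem_range.1 ht; omega, rfl⟩, h.symm⟩

theorem mny_le {w : List Dir} {v : ℤ × ℤ} (h : Vs w v) : mny w ≤ v.2 := by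
  obtain ⟨t, ht, rfl⟩ := h
  exact Finset.inf'_le (fun t => (Lip.PP w t).2) (Finset.mem_range.2 (by omega))

theorem ex_mny (w : List Dir) : ∃ v, Vs w v ∧ v.2 = mny w := by
  obtain ⟨t, ht, h⟩ := Finset.exists_mem_eq_inf' (s := range (w.length + 1)) ⟨0, by simp⟩
    (fun t => (Lip.PP w t).2)
  exact ⟨_, ⟨t, by have := Finset.mem_range.1 ht; omega, rfl⟩, h.symm⟩

theorem xt : S_XT := by
  intro L _ a l st fl hF w hw U hU
  have hV := fun v => vs_fl hF hw v U hU
  refine ⟨?_, ?_, ?_, ?_, last_fl hF hw U hU⟩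
  · have hle : ∀ q ∈ U, q.1 ≤ mxx w := by
      intro q hq
      obtain ⟨v, hv, hc⟩ := slot_vs (hU hq)
      have h1 := le_mxx hv
      unfold Cn at hc
      omega
    obtain ⟨v1, hv1, e1⟩ := ex_mxx (fl w U)
    obtain ⟨v2, hv2, e2⟩ := ex_mxx w
    have hlow := le_mxx ((hV v2).2 (Or.inl hv2))
    split_ifs with h
    · obtain ⟨q, hq, e⟩ := h
      have h1 := le_mxx ((hV (q.1 + 1, q.2)).2 (Or.inr ⟨q, hq, Or.inr rfl, Or.inl rfl⟩))
      simp only at h1
      rcases (hV v1).1 hv1 with h2 | ⟨q', hq', h2⟩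
      · have := le_mxx h2
        omega
      · have := hle q' hq'
        unfold Cn at h2
        omega
    · rcases (hV v1).1 hv1 with h2 | ⟨q', hq', h2⟩
      · have := le_mxx h2
        omega
      · have h3 := hle q' hq'
        have h4 : q'.1 ≠ mxx w := fun h4 => h ⟨q', hq', h4⟩
        unfold Cn at h2
        omega
  · have hle : ∀ q ∈ U, mnx w ≤ q.1 + 1 := by
      intro q hq
      obtain ⟨v, hv, hc⟩ := slot_vs (hU hq)
      have h1 := mnx_le hv
      unfold Cn at hc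
      omega
    obtain ⟨v1, hv1, e1⟩ := ex_mnx (fl w U)
    obtain ⟨v2, hv2, e2⟩ := ex_mnx w
    have hlow := mnx_le ((hV v2).2 (Or.inl hv2))
    split_ifs with h
    · obtain ⟨q, hq, e⟩ := h
      have h1 := mnx_le ((hV (q.1, q.2)).2 (Or.inr ⟨q, hq, Or.inl rfl, Or.inl rfl⟩))
      simp only at h1
      rcases (hV v1).1 hv1 with h2 | ⟨q', hq', h2⟩
      · have := mnx_le h2
        omega
      · have := hle q' hq'
        unfold Cn at h2
        omega
    · rcases (hV v1).1 hv1 with h2 | ⟨q', hq', h2⟩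
      · have := mnx_le h2
        omega
      · have h3 := hle q' hq'
        have h4 : q'.1 + 1 ≠ mnx w := fun h4 => h ⟨q', hq', h4⟩
        unfold Cn at h2
        omega
  · have hle : ∀ q ∈ U, q.2 ≤ mxy w := by
      intro q hq
      obtain ⟨v, hv, hc⟩ := slot_vs (hU hq)
      have h1 := le_mxy hv
      unfold Cn at hc
      omega
    obtain ⟨v1, hv1, e1⟩ := ex_mxy (fl w U)
    obtain ⟨v2, hv2, e2⟩ := ex_mxy w
    have hlow := le_mxy ((hV v2).2 (Or.inl hv2))
    split_ifs with h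
    · obtain ⟨q, hq, e⟩ := h
      have h1 := le_mxy ((hV (q.1, q.2 + 1)).2 (Or.inr ⟨q, hq, Or.inl rfl, Or.inr rfl⟩))
      simp only at h1
      rcases (hV v1).1 hv1 with h2 | ⟨q', hq', h2⟩
      · have := le_mxy h2
        omega
      · have := hle q' hq'
        unfold Cn at h2
        omega
    · rcases (hV v1).1 hv1 with h2 | ⟨q', hq', h2⟩
      · have := le_mxy h2
        omega
      · have h3 := hle q' hq'
        have h4 : q'.2 ≠ mxy w := fun h4 => h ⟨q', hq', h4⟩
        unfold Cn at h2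
        omega
  · have hle : ∀ q ∈ U, mny w ≤ q.2 + 1 := by
      intro q hq
      obtain ⟨v, hv, hc⟩ := slot_vs (hU hq)
      have h1 := mny_le hv
      unfold Cn at hc
      omega
    obtain ⟨v1, hv1, e1⟩ := ex_mny (fl w U)
    obtain ⟨v2, hv2, e2⟩ := ex_mny w
    have hlow := mny_le ((hV v2).2 (Or.inl hv2))
    split_ifs with h
    · obtain ⟨q, hq, e⟩ := h
      have h1 := mny_le ((hV (q.1, q.2)).2 (Or.inr ⟨q, hq, Or.inl rfl, Or.inl rfl⟩))
      simp only at h1
      rcases (hV v1).1 hv1 with h2 | ⟨q', hq', h2⟩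
      · have := mny_le h2
        omega
      · have := hle q' hq'
        unfold Cn at h2
        omega
    · rcases (hV v1).1 hv1 with h2 | ⟨q', hq', h2⟩
      · have := mny_le h2
        omega
      · have h3 := hle q' hq'
        have h4 : q'.2 + 1 ≠ mny w := fun h4 => h ⟨q', hq', h4⟩
        unfold Cn at h2
        omega

end

end Pool.Agent.N426.EZ
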